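import Pool.Agent.Helper33.PT.Defs

/-!
# Plan T, modules T-UNT and T-LOG
-/

set_option autoImplicit false

open Finset Polynomial

namespace Pool.Agent.Helper82.PT

open Pool.Agent.Helper33 Pool.Agent.Helper33.PS Pool.Agent.Helper33.PT

section unt

variable {K : Type*} [Field K] {D : K → K}

lemma D_zero (hadd : ∀ x y, D (x + y) = D x + D y) : D 0 = 0 := by
  have h := hadd 0 0
  rw [add_zero] at h
  exact left_eq_add.mp h

lemma D_one (hmul : ∀ x y, D (x * y) = x * D y + y * D x) : D 1 = 0 := by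
  have h := hmul 1 1
  rw [mul_one, one_mul] at h
  exact left_eq_add.mp h

lemma D_sum (hadd : ∀ x y, D (x + y) = D x + D y) {ι : Type*} (s : Finset ι) (f : ι → K) :
    D (∑ i ∈ s, f i) = ∑ i ∈ s, D (f i) := by
  classical
  induction s using Finset.induction_on with
  | empty => simp [D_zero hadd]
  | insert a s ha ih => rw [sum_insert ha, sum_insert ha, hadd, ih]

lemma D_pow (hmul : ∀ x y, D (x * y) = x * D y + y * D x) {z : K} (hz : D z = 0) (n : ℕ) :
    D (z ^ n) = 0 := by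
  induction n with
  | zero => simp [D_one hmul]
  | succ n ih => rw [pow_succ, hmul, ih, hz]; ring

/-- coefficientwise derivative -/
noncomputable def pD (D : K → K) (d : ℕ) (F : K[X]) : K[X] :=
  ∑ i ∈ range (d + 1), C (D (F.coeff i)) * X ^ i

lemma pD_natDegree (d : ℕ) (F : K[X]) : (pD D d F).natDegree ≤ d := by
  unfold pD
  apply natDegree_sum_le_of_forall_le
  intro i hi
  have h1 : i ≤ d := by have := mem_range.mp hi; omega
  exact (natDegree_C_mul_X_pow_le _ _).trans h1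

lemma pD_coeff (hadd : ∀ x y, D (x + y) = D x + D y) {d : ℕ} {F : K[X]} (hF : F.natDegree ≤ d) (i : ℕ) :
    (pD D d F).coeff i = D (F.coeff i) := by
  unfold pD
  rw [finsetSum_coeff]
  simp only [coeff_C_mul, coeff_X_pow]
  by_cases hi : i ∈ range (d + 1)
  · rw [sum_eq_single_of_mem i hi]
    · simp
    · intro b _ hb
      rw [if_neg (Ne.symm hb)]; ring
  · have h1 : F.coeff i = 0 := by
      apply coeff_eq_zero_of_natDegree_lt
      have := mem_range.not.mp hi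
      omega
    rw [h1, D_zero hadd]
    apply sum_eq_zero
    intro b hb
    rw [if_neg (by rintro rfl; exact hi hb)]; ring

lemma pD_eval (hadd : ∀ x y, D (x + y) = D x + D y) (hmul : ∀ x y, D (x * y) = x * D y + y * D x)
    {d : ℕ} {F : K[X]} (hF : F.natDegree ≤ d) {z : K} (hz : D z = 0) :
    D (F.eval z) = (pD D d F).eval z := by
  rw [eval_eq_sum_range' (Nat.lt_succ_of_le hF), D_sum hadd]
  unfold pD
  rw [eval_finsetSum]
  apply sum_congr rfl
  intro i _
  rw [hmul, D_pow hmul hz]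
  simp only [eval_mul, eval_C, eval_pow, eval_X]
  ring

end unt

/-- T-UNT: the coefficients of a normalised map are constants for `D` -/
theorem coeff_const_of_points {K : Type} [Field K] {D : K → K}
    (hadd : ∀ x y, D (x + y) = D x + D y) (hmul : ∀ x y, D (x * y) = x * D y + y * D x) {d : ℕ}
    {F G : K[X]} (hFG : IsRat F G d) (hnorm : ∃ i, F.coeff i = 1 ∨ G.coeff i = 1) (s : Finset K)
    (hs : 2 * d < s.card) (h : ∀ z ∈ s, D z = 0 ∧ G.eval z ≠ 0 ∧ D (F.eval z / G.eval z) = 0) :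
    ∀ i, D (F.coeff i) = 0 ∧ D (G.coeff i) = 0 := by
  have hz : ∀ z ∈ s, ((pD D d F) * G - F * (pD D d G)).eval z = 0 := by
    intro z hzs
    obtain ⟨h1, h2, h3⟩ := h z hzs
    have e1 : D (F.eval z) = F.eval z / G.eval z * D (G.eval z) := by
      have := hmul (F.eval z / G.eval z) (G.eval z)
      rw [div_mul_cancel₀ _ h2, h3] at this
      rw [this]; ring
    rw [pD_eval hadd hmul hFG.dA h1, pD_eval hadd hmul hFG.dB h1] at e1
    rw [eval_sub, eval_mul, eval_mul, e1]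
    field_simp
    ring
  have hdeg : ((pD D d F) * G - F * (pD D d G)).natDegree ≤ 2 * d := by
    refine (natDegree_sub_le _ _).trans (max_le ?_ ?_)
    · exact natDegree_mul_le.trans (by have := pD_natDegree (D := D) d F; have := hFG.dB; omega)
    · exact natDegree_mul_le.trans (by have := pD_natDegree (D := D) d G; have := hFG.dA; omega)
  have h0 : (pD D d F) * G - F * (pD D d G) = 0 :=
    eq_zero_of_natDegree_lt_card_of_eval_eq_zero' _ s hz (by omega)
  obtain ⟨a, b, hab⟩ := hFG.cop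
  set la : K[X] := a * pD D d F + b * pD D d G with hla
  have hF1 : pD D d F = F * la := by
    rw [hla]
    linear_combination (-(pD D d F)) * hab + b * h0
  have hG1 : pD D d G = G * la := by
    rw [hla]
    linear_combination (-(pD D d G)) * hab - a * h0
  have hcst : la.natDegree = 0 := by
    by_cases hl : la = 0
    · rw [hl, natDegree_zero]
    rcases hFG.top with ht | ht
    · have hF0 : F ≠ 0 := by rintro rfl; simp at ht
      have h1 : d ≤ F.natDegree := le_natDegree_of_ne_zero ht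
      have h2 := pD_natDegree (D := D) d F
      rw [hF1, natDegree_mul hF0 hl] at h2
      omega
    · have hG0 : G ≠ 0 := by rintro rfl; simp at ht
      have h1 : d ≤ G.natDegree := le_natDegree_of_ne_zero ht
      have h2 := pD_natDegree (D := D) d G
      rw [hG1, natDegree_mul hG0 hl] at h2
      omega
  obtain ⟨l, hl⟩ : ∃ l, la = C l := ⟨_, eq_C_of_natDegree_eq_zero hcst⟩
  have hFc : ∀ i, D (F.coeff i) = F.coeff i * l := by
    intro i
    rw [← pD_coeff hadd hFG.dA, hF1, hl, coeff_mul_C]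
  have hGc : ∀ i, D (G.coeff i) = G.coeff i * l := by
    intro i
    rw [← pD_coeff hadd hFG.dB, hG1, hl, coeff_mul_C]
  have hl0 : l = 0 := by
    obtain ⟨i, hi | hi⟩ := hnorm
    · have := hFc i
      rw [hi, D_one hmul, one_mul] at this
      exact this.symm
    · have := hGc i
      rw [hi, D_one hmul, one_mul] at this
      exact this.symm
  intro i
  rw [hFc, hGc, hl0]
  simp

section log

variable {k K V : Type} [Field k] [Field K] [Algebra k K] (P : PSys k K V)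

/-- the logarithmic derivative -/
noncomputable def eta (P : PSys k K V) (y a b : K) : K := P.D y * (a - b) / ((y - a) * (y - b))

lemma y_ne {y a : K} (hy : P.D y ≠ 0) (ha : P.D a = 0) : y - a ≠ 0 := by
  intro h
  rw [sub_eq_zero.mp h] at hy
  exact hy ha

lemma eta_ne {y a b : K} (hy : P.D y ≠ 0) (ha : P.D a = 0) (hb : P.D b = 0) (hab : a ≠ b) :
    eta P y a b ≠ 0 :=
  div_ne_zero (mul_ne_zero hy (sub_ne_zero.mpr hab)) (mul_ne_zero (y_ne P hy ha) (y_ne P hy hb))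

lemma eta_order {y a b c : K} (hy : P.D y ≠ 0) (ha : P.D a = 0) (hb : P.D b = 0) (hc : P.D c = 0)
    (hab : a ≠ b) (hac : a ≠ c) (hbc : b ≠ c) (v : V) :
    -1 - (P.e v : ℤ) ≤ (P.pl v).o (eta P y a b) ∧
      ((P.pl v).o ((y - a) * (c - b) / ((y - b) * (c - a))) = 0 →
        -(P.e v : ℤ) ≤ (P.pl v).o (eta P y a b)) := by
  have na := y_ne P hy ha
  have nb := y_ne P hy hb
  have ncb : c - b ≠ 0 := sub_ne_zero.mpr hbc.symm
  have nca : c - a ≠ 0 := sub_ne_zero.mpr hac.symm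
  set u : K := (y - a) * (c - b) / ((y - b) * (c - a)) with hu
  have hu0 : u ≠ 0 := div_ne_zero (mul_ne_zero na ncb) (mul_ne_zero nb nca)
  have hDcb : P.D (c - b) = 0 := by rw [P.D_sub, hc, hb, sub_zero]
  have hDca : P.D (c - a) = 0 := by rw [P.D_sub, hc, ha, sub_zero]
  have hDu : P.D u = u * eta P y a b := by
    rw [hu, P.D_div _ _ (mul_ne_zero nb nca), P.D_mul, P.D_mul, hDcb, hDca, P.D_sub, P.D_sub, ha, hb,
      eta]
    field_simp
    ring
  have he := eta_ne P hy ha hb hab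
  have hDu0 : P.D u ≠ 0 := by rw [hDu]; exact mul_ne_zero hu0 he
  have ho : (P.pl v).o (P.D u) = (P.pl v).o u + (P.pl v).o (eta P y a b) := by
    rw [hDu, (P.pl v).mul _ _ hu0 he]
  constructor
  · have := P.ord_D v u hu0 hDu0
    omega
  · intro h
    have := P.ord_D' v u hu0 hDu0 (by omega)
    omega

lemma eta_sum {y a b : K} (hy : P.D y ≠ 0) (ha : P.D a = 0) (hb : P.D b = 0)
    (hab : a ≠ b) (X : Finset V)
    (h1 : ∀ v, -1 - (P.e v : ℤ) ≤ (P.pl v).o (eta P y a b))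
    (h2 : ∀ v ∉ X, -(P.e v : ℤ) ≤ (P.pl v).o (eta P y a b))
    (T : Finset V) (hT : ∀ v, v ∉ T → (P.pl v).o (eta P y a b) = 0) :
    ∑ v ∈ T, |(P.pl v).o (eta P y a b)| ≤ 2 * (P.E + X.card) := by
  classical
  have he := eta_ne P hy ha hb hab
  have h0 := P.sum_eq_zero T _ he hT
  have hpt : ∀ v ∈ T, |(P.pl v).o (eta P y a b)| ≤ (P.pl v).o (eta P y a b) +
      2 * ((P.e v : ℤ) + if v ∈ X then 1 else 0) := by
    intro v _
    have a1 := h1 v
    by_cases hv : v ∈ X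
    · rw [if_pos hv]
      rcases abs_cases ((P.pl v).o (eta P y a b)) with ⟨q1, q2⟩ | ⟨q1, q2⟩ <;> omega
    · rw [if_neg hv]
      have a2 := h2 v hv
      rcases abs_cases ((P.pl v).o (eta P y a b)) with ⟨q1, q2⟩ | ⟨q1, q2⟩ <;> omega
  refine (sum_le_sum hpt).trans ?_
  rw [sum_add_distrib, h0, zero_add, ← mul_sum, sum_add_distrib]
  have h3 : ∑ v ∈ T, (P.e v : ℤ) ≤ P.E := by exact_mod_cast P.sum_e_le T
  have h4 : ∑ v ∈ T, (if v ∈ X then (1 : ℤ) else 0) ≤ X.card := by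
    rw [← sum_filter, sum_const, nsmul_eq_mul, mul_one]
    have : (T.filter fun v => v ∈ X).card ≤ X.card := card_le_card (by
      intro v hv; exact (mem_filter.mp hv).2)
    exact_mod_cast this
  linarith

end log

/-- T-LOG -/
theorem log_bound {k K V : Type} [Field k] [Field K] [Algebra k K] (P : PSys k K V) {y : K}
    (hy : P.D y ≠ 0) (S : Finset K) (hSD : ∀ z ∈ S, P.D z = 0) (X : Finset V)
    (hX : ∀ v ∉ X, ∀ z₁ ∈ S, ∀ z₂ ∈ S, ∀ z₃ ∈ S, z₁ ≠ z₂ → z₁ ≠ z₃ → z₂ ≠ z₃ →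
      (P.pl v).o ((y - z₁) * (z₃ - z₂) / ((y - z₂) * (z₃ - z₁))) = 0)
    {z₁ z₂ z₃ z₄ : K} (h₁ : z₁ ∈ S) (h₂ : z₂ ∈ S) (h₃ : z₃ ∈ S) (h₄ : z₄ ∈ S) (h12 : z₁ ≠ z₂)
    (h13 : z₁ ≠ z₃) (h14 : z₁ ≠ z₄) (h23 : z₂ ≠ z₃) (h24 : z₂ ≠ z₄) (h34 : z₃ ≠ z₄) :
    (∑ᶠ v, |(P.pl v).o ((z₁ - z₃) * (z₂ - z₄) / ((z₁ - z₄) * (z₂ - z₃)))|) ≤ 8 * (P.E + X.card) := by
  classical
  have d1 := hSD _ h₁
  have d2 := hSD _ h₂
  have d3 := hSD _ h₃
  have d4 := hSD _ h₄
  have key : ∀ a ∈ S, ∀ b ∈ S, ∀ c ∈ S, a ≠ b → a ≠ c → b ≠ c → ∀ T : Finset V,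
      (∀ v, v ∉ T → (P.pl v).o (eta P y a b) = 0) →
      ∑ v ∈ T, |(P.pl v).o (eta P y a b)| ≤ 2 * (P.E + X.card) := by
    intro a ha b hb c hc hab hac hbc T hT
    have h := eta_order P hy (hSD _ ha) (hSD _ hb) (hSD _ hc) hab hac hbc
    exact eta_sum P hy (hSD _ ha) (hSD _ hb) hab X (fun v => (h v).1)
      (fun v hv => (h v).2 (hX v hv a ha b hb c hc hab hac hbc)) T hT
  have e13 := eta_ne P hy d1 d3 h13
  have e24 := eta_ne P hy d2 d4 h24
  have e14 := eta_ne P hy d1 d4 h14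
  have e23 := eta_ne P hy d2 d3 h23
  have hx : (z₁ - z₃) * (z₂ - z₄) / ((z₁ - z₄) * (z₂ - z₃)) =
      eta P y z₁ z₃ * eta P y z₂ z₄ / (eta P y z₁ z₄ * eta P y z₂ z₃) := by
    unfold eta
    have n1 := y_ne P hy d1
    have n2 := y_ne P hy d2
    have n3 := y_ne P hy d3
    have n4 := y_ne P hy d4
    have n14 : z₁ - z₄ ≠ 0 := sub_ne_zero.mpr h14
    have n23 : z₂ - z₃ ≠ 0 := sub_ne_zero.mpr h23
    field_simp
  obtain ⟨T, -, hT⟩ := P.exists_finset {eta P y z₁ z₃, eta P y z₂ z₄, eta P y z₁ z₄, eta P y z₂ z₃} (by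
    intro x hx
    simp only [mem_insert, mem_singleton] at hx
    rcases hx with rfl | rfl | rfl | rfl <;> assumption)
  have t13 := hT _ (by simp : eta P y z₁ z₃ ∈ _)
  have t24 := hT _ (by simp : eta P y z₂ z₄ ∈ _)
  have t14 := hT _ (by simp : eta P y z₁ z₄ ∈ _)
  have t23 := hT _ (by simp : eta P y z₂ z₃ ∈ _)
  have ho : ∀ v, (P.pl v).o ((z₁ - z₃) * (z₂ - z₄) / ((z₁ - z₄) * (z₂ - z₃))) =
      (P.pl v).o (eta P y z₁ z₃) + (P.pl v).o (eta P y z₂ z₄) - ((P.pl v).o (eta P y z₁ z₄) +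
        (P.pl v).o (eta P y z₂ z₃)) := by
    intro v
    rw [hx, DV.o_div _ _ _ (mul_ne_zero e13 e24) (mul_ne_zero e14 e23), (P.pl v).mul _ _ e13 e24,
      (P.pl v).mul _ _ e14 e23]
  have hsum : (∑ᶠ v, |(P.pl v).o ((z₁ - z₃) * (z₂ - z₄) / ((z₁ - z₄) * (z₂ - z₃)))|) =
      ∑ v ∈ T, |(P.pl v).o ((z₁ - z₃) * (z₂ - z₄) / ((z₁ - z₄) * (z₂ - z₃)))| := by
    apply finsum_eq_sum_of_support_subset
    intro v hv
    by_contra hvT
    apply hv
    have hvT' : v ∉ T := by simpa using hvT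
    change |_| = _
    rw [ho v, t13 v hvT', t24 v hvT', t14 v hvT', t23 v hvT']
    simp
  rw [hsum]
  have b13 := key z₁ h₁ z₃ h₃ z₂ h₂ h13 h12 h23.symm T t13
  have b24 := key z₂ h₂ z₄ h₄ z₁ h₁ h24 h12.symm h14.symm T t24
  have b14 := key z₁ h₁ z₄ h₄ z₂ h₂ h14 h12 h24.symm T t14
  have b23 := key z₂ h₂ z₃ h₃ z₁ h₁ h23 h12.symm h13.symm T t23
  calc ∑ v ∈ T, |(P.pl v).o ((z₁ - z₃) * (z₂ - z₄) / ((z₁ - z₄) * (z₂ - z₃)))|
      ≤ ∑ v ∈ T, (|(P.pl v).o (eta P y z₁ z₃)| + |(P.pl v).o (eta P y z₂ z₄)| +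
        (|(P.pl v).o (eta P y z₁ z₄)| + |(P.pl v).o (eta P y z₂ z₃)|)) := by
        apply sum_le_sum
        intro v _
        rw [ho v]
        exact (abs_sub _ _).trans (add_le_add (abs_add_le _ _) (abs_add_le _ _))
    _ ≤ 8 * (P.E + X.card) := by
        rw [sum_add_distrib, sum_add_distrib, sum_add_distrib]
        linarith

end Pool.Agent.Helper82.PT
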